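import Pool.Agent.MP_48b1c3_nt.H54.Mertens
import Pool.Agent.MP_a96b63_al.Sieve2

/-!
The mean value of `h / φ(h)` over a thin set of integers.
-/

set_option autoImplicit false

namespace Pool.Agent.MP_18a942_nt

open Finset Pool.Agent.MP_a96b63_al

lemma sum_prod_dvd_le (Q : Finset ℕ) (hQ : ∀ q ∈ Q, q.Prime) (c : ℕ → ℝ) (hc : ∀ q ∈ Q, 0 ≤ c q)
    (Y : ℕ) : ∑ h ∈ Ioc 0 Y, ∏ q ∈ Q, (1 + if q ∣ h then c q else 0) ≤
      Y * ∏ q ∈ Q, (1 + c q / q) := by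
  simp only [prod_one_add]
  rw [sum_comm, mul_sum]
  refine sum_le_sum fun t ht => ?_
  have ht' := mem_powerset.mp ht
  have h0 : 0 ≤ ∏ q ∈ t, c q := prod_nonneg fun q hq => hc q (ht' hq)
  calc ∑ h ∈ Ioc 0 Y, ∏ q ∈ t, (if q ∣ h then c q else 0)
      ≤ ∑ h ∈ Ioc 0 Y, if (∏ q ∈ t, q) ∣ h then ∏ q ∈ t, c q else 0 := by
        refine sum_le_sum fun h _ => ?_
        rw [prod_ite_zero]
        split_ifs with h1 h2 h2
        · exact le_rfl
        · exact absurd (Finset.prod_primes_dvd h (fun q hq => (hQ q (ht' hq)).prime) h1) h2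
        · exact h0
        · exact le_rfl
    _ = (Y / ∏ q ∈ t, q : ℕ) * ∏ q ∈ t, c q := by
        rw [← sum_filter, sum_const, Nat.Ioc_filter_dvd_card_eq_div, nsmul_eq_mul]
    _ ≤ Y / (∏ q ∈ t, q : ℕ) * ∏ q ∈ t, c q := by gcongr; exact Nat.cast_div_le
    _ = _ := by rw [prod_div_distrib, Nat.cast_prod]; ring

lemma tele {m : ℕ} (hm : 1 ≤ m) (S : Finset ℕ) (hS : ∀ q ∈ S, m < q) :
    ∑ q ∈ S, 1 / ((q : ℝ) - 1) / q ≤ 1 / m := by
  have m0 : (1 : ℝ) ≤ m := by exact_mod_cast hm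
  have key : ∀ N : ℕ, ∑ q ∈ Ioc m (m + N), 1 / ((q : ℝ) - 1) / q = 1 / m - 1 / (m + N) := by
    intro N
    induction N with
    | zero => simp
    | succ N ih =>
      rw [← add_assoc, sum_Ioc_succ_top (by omega), ih]
      have : (0 : ℝ) ≤ N := N.cast_nonneg
      push_cast
      have h1 : (m : ℝ) + N + 1 - 1 = m + N := by ring
      rw [h1, ← add_assoc]
      field_simp
      ring
  calc _ ≤ ∑ q ∈ Ioc m (m + S.sup id), 1 / ((q : ℝ) - 1) / q := by
        refine sum_le_sum_of_subset_of_nonneg (fun q hq => mem_Ioc.mpr ⟨hS q hq, ?_⟩) fun q hq _ => ?_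
        · exact (le_sup (f := id) hq).trans (Nat.le_add_left _ _)
        · have : (m : ℝ) < q := by exact_mod_cast (mem_Ioc.mp hq).1
          exact div_nonneg (div_nonneg zero_le_one (by linarith)) (by linarith)
    _ ≤ _ := by
        rw [key]
        have : (0 : ℝ) ≤ 1 / (m + (S.sup id : ℕ)) := by positivity
        linarith

lemma prod_le_exp (S : Finset ℕ) (f : ℕ → ℝ) (hf : ∀ q ∈ S, 0 ≤ f q) :
    ∏ q ∈ S, (1 + f q) ≤ Real.exp (∑ q ∈ S, f q) := by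
  rw [Real.exp_sum]
  exact prod_le_prod (fun q hq => by have := hf q hq; linarith)
    fun q _ => by linarith [Real.add_one_le_exp (f q)]

lemma small_part : ∃ C : ℝ, 0 < C ∧ ∀ k : ℕ, 2 ≤ k → ∀ S : Finset ℕ,
    (∀ q ∈ S, q.Prime ∧ q ≤ k) → ∏ q ∈ S, (1 + 1 / ((q : ℝ) - 1)) ≤ C * Real.log k := by
  obtain ⟨C, -, hC⟩ := Pool.Agent.MP_48b1c3_nt.H54.mertens2
  refine ⟨Real.exp (C + 1), Real.exp_pos _, fun k hk S hS => ?_⟩
  have k2 : (2 : ℝ) ≤ k := by exact_mod_cast hk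
  have h1 := (abs_le.mp (hC k k2)).2
  have h2 := tele le_rfl S fun q hq => (hS q hq).1.one_lt
  have h3 : ∑ q ∈ S, (1 : ℝ) / q ≤ ∑ q ∈ Pool.Agent.MP_48b1c3_nt.H54.PI 0 k, (1 : ℝ) / q :=
    sum_le_sum_of_subset_of_nonneg (fun q hq => Pool.Agent.MP_48b1c3_nt.H54.mem_PI.2
      ⟨by exact_mod_cast (hS q hq).1.pos, by exact_mod_cast (hS q hq).2, (hS q hq).1⟩)
      fun _ _ _ => by positivity
  have h4 : ∑ q ∈ S, 1 / ((q : ℝ) - 1) = ∑ q ∈ S, (1 : ℝ) / q + ∑ q ∈ S, 1 / ((q : ℝ) - 1) / q := by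
    rw [← sum_add_distrib]
    refine sum_congr rfl fun q hq => ?_
    have : (1 : ℝ) < q := by exact_mod_cast (hS q hq).1.one_lt
    have h5 : (q : ℝ) - 1 ≠ 0 := by linarith
    field_simp
    ring
  refine (prod_le_exp S _ fun q hq => inv_pred_nonneg (hS q hq).1).trans ?_
  rw [← Real.exp_log (Real.log_pos (by linarith : (1 : ℝ) < k)), ← Real.exp_add]
  simp only [Nat.cast_one, div_one] at h2
  exact Real.exp_le_exp.mpr (by linarith)

lemma large_part {k : ℕ} (hk : 1 ≤ k) (Q : Finset ℕ) (hQ : ∀ q ∈ Q, q.Prime ∧ k < q) (Y : ℕ) :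
    ∑ h ∈ Ioc 0 Y, (∏ q ∈ Q, (1 + if q ∣ h then 1 / ((q : ℝ) - 1) else 0)) ^ k ≤ 8 * Y := by
  have k0 : (0 : ℝ) < k := by exact_mod_cast hk
  have hn := fun q hq => inv_pred_nonneg (hQ q hq).1
  have h1 := sum_prod_dvd_le Q (fun q hq => (hQ q hq).1) (fun q => 2 * k * (1 / ((q : ℝ) - 1)))
    (fun q hq => by have := hn q hq; positivity) Y
  have h2 := prod_le_exp Q (fun q => 2 * k * (1 / ((q : ℝ) - 1)) / q)
    fun q hq => by have := hn q hq; positivity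
  have h3 := tele hk Q fun q hq => (hQ q hq).2
  have h4 : ∑ q ∈ Q, 2 * k * (1 / ((q : ℝ) - 1)) / q ≤ 2 := by
    simp only [mul_div_assoc]
    rw [← mul_sum]
    calc _ ≤ 2 * k * (1 / (k : ℝ)) := by gcongr
      _ = 2 := by field_simp
  have h5 : Real.exp 2 ≤ 8 := by
    rw [show (2 : ℝ) = 1 + 1 by norm_num, Real.exp_add]
    nlinarith [Real.exp_one_lt_d9, Real.exp_pos 1]
  refine le_trans (sum_le_sum fun h _ => ?_) (h1.trans ?_)
  · rw [← prod_pow]
    refine prod_le_prod (fun q hq => ?_) fun q hq => ?_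
    · have := hn q hq
      split_ifs <;> positivity
    · have h6 := hn q hq
      have h7 : (k : ℝ) + 1 ≤ q := by exact_mod_cast (hQ q hq).2
      have h8 : k * (1 / ((q : ℝ) - 1)) ≤ 1 := by
        rw [mul_one_div, div_le_one (by linarith)]; linarith
      split_ifs
      · have h9 : 0 ≤ k * (1 / ((q : ℝ) - 1)) := by positivity
        have h10 := (abs_le.mp (Real.abs_exp_sub_one_le (x := k * (1 / ((q : ℝ) - 1)))
          (by rwa [abs_of_nonneg h9]))).2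
        rw [abs_of_nonneg h9, Real.exp_nat_mul] at h10
        have h11 : (1 + 1 / ((q : ℝ) - 1)) ^ k ≤ Real.exp (1 / ((q : ℝ) - 1)) ^ k := by
          gcongr; linarith [Real.add_one_le_exp (1 / ((q : ℝ) - 1))]
        linarith
      · simp
  · rw [mul_comm]
    gcongr
    exact h2.trans ((Real.exp_le_exp.mpr h4).trans h5)

theorem hh_avg : ∃ C : ℝ, 0 < C ∧ ∀ k : ℕ, 2 ≤ k → ∀ (Y : ℕ) (H : Finset ℕ), H ⊆ Ioc 0 Y →
    ∑ h ∈ H, hh h ≤ C * Real.log k * (#H + Y / 2 ^ k) := by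
  obtain ⟨C, C0, hC⟩ := small_part
  refine ⟨16 * C, by positivity, fun k hk Y H hH => ?_⟩
  have k2 : (2 : ℝ) ≤ k := by exact_mod_cast hk
  have l0 : 0 < Real.log k := Real.log_pos (by linarith)
  set Q := (Ioc k Y).filter Nat.Prime with hQ
  have hQ' : ∀ q ∈ Q, q.Prime ∧ k < q := fun q hq =>
    ⟨(mem_filter.mp hq).2, (mem_Ioc.mp (mem_filter.mp hq).1).1⟩
  set g : ℕ → ℝ := fun h => ∏ q ∈ Q, (1 + if q ∣ h then 1 / ((q : ℝ) - 1) else 0) with hg
  have g0 : ∀ h, 0 ≤ g h := fun h => prod_nonneg fun q hq => by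
    have := inv_pred_nonneg (hQ' q hq).1
    split_ifs <;> positivity
  have h1 : ∀ h ∈ H, hh h ≤ C * Real.log k * (2 + 2 / 2 ^ k * g h ^ k) := by
    intro h hh'
    obtain ⟨h2, h3⟩ := mem_Ioc.mp (hH hh')
    have h4 : ∏ q ∈ h.primeFactors with ¬ q ≤ k, (1 + 1 / ((q : ℝ) - 1)) = g h := by
      have : g h = ∏ q ∈ Q with q ∣ h, (1 + 1 / ((q : ℝ) - 1)) := by
        rw [prod_filter]
        refine prod_congr rfl fun q _ => ?_
        split_ifs <;> simp
      rw [this]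
      refine prod_congr ?_ fun _ _ => rfl
      ext q
      simp only [hQ, mem_filter, Nat.mem_primeFactors, mem_Ioc]
      constructor
      · rintro ⟨⟨a, b, -⟩, c⟩
        exact ⟨⟨⟨by omega, (Nat.le_of_dvd h2 b).trans h3⟩, a⟩, b⟩
      · rintro ⟨⟨⟨a, -⟩, b⟩, c⟩
        exact ⟨⟨b, c, by omega⟩, by omega⟩
    have h5 : g h ≤ 2 + 2 / 2 ^ k * g h ^ k := by
      rcases le_total (g h) 2 with h6 | h6
      · have := g0 h
        have : 0 ≤ 2 / 2 ^ k * g h ^ k := by positivity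
        linarith
      · obtain ⟨j, rfl⟩ : ∃ j, k = j + 1 := ⟨k - 1, by omega⟩
        have h7 : (2 : ℝ) ^ j ≤ g h ^ j := by gcongr
        have h8 : g h ≤ 2 / 2 ^ (j + 1) * g h ^ (j + 1) := by
          rw [pow_succ, pow_succ, div_mul_eq_mul_div, le_div_iff₀ (by positivity)]
          nlinarith [g0 h]
        linarith
    rw [hh, ← prod_filter_mul_prod_filter_not h.primeFactors (· ≤ k), h4]
    exact mul_le_mul (hC k hk _ fun q hq => ⟨Nat.prime_of_mem_primeFactors (mem_filter.mp hq).1,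
      (mem_filter.mp hq).2⟩) h5 (g0 h) (by positivity)
  refine (sum_le_sum h1).trans ?_
  rw [← mul_sum, sum_add_distrib, ← mul_sum, sum_const, nsmul_eq_mul]
  have h2 : ∑ h ∈ H, g h ^ k ≤ 8 * Y :=
    (sum_le_sum_of_subset_of_nonneg hH fun h _ _ => pow_nonneg (g0 h) k).trans
      (large_part (by omega) Q hQ' Y)
  calc _ ≤ C * Real.log k * (#H * 16 + 2 / 2 ^ k * (8 * Y)) := by gcongr; norm_num
    _ = _ := by ring

end Pool.Agent.MP_18a942_nt
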