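import Pool.Agent.MP_a96b63_al.Sieve2

/-!
Upper bound for the number of `n` with `p n - a` and `p' n - a` both prime.
-/

set_option autoImplicit false

namespace Pool.Agent.MP_18a942_nt

open Finset Pool.Agent.MP_a96b63_al

lemma hh_mul_le (m n : ℕ) (hm : m ≠ 0) (hn : n ≠ 0) : hh (m * n) ≤ hh m * hh n := by
  have h0 : ∀ k : ℕ, ∀ q ∈ k.primeFactors, (1 : ℝ) ≤ 1 + 1 / ((q : ℝ) - 1) := fun k q hq => by
    have := inv_pred_nonneg (Nat.prime_of_mem_primeFactors hq); linarith
  rw [hh, Nat.primeFactors_mul hm hn, hh, hh, ← prod_union_inter]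
  refine le_mul_of_one_le_right (prod_nonneg fun q hq => ?_)
    (one_le_prod fun q hq => h0 m q (mem_inter.mp hq).1)
  rcases mem_union.mp hq with h | h
  exacts [zero_le_one.trans (h0 m q h), zero_le_one.trans (h0 n q h)]

lemma hh_prime {p : ℕ} (hp : p.Prime) (h2 : 2 < p) : hh p ≤ 3 / 2 := by
  rw [hh, hp.primeFactors, prod_singleton]
  have : (3 : ℝ) ≤ p := by exact_mod_cast h2
  have : 1 / ((p : ℝ) - 1) ≤ 1 / 2 := one_div_le_one_div_of_le two_pos (by linarith)
  linarith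

lemma totient_mul_hh (h : ℕ) : (h.totient : ℝ) * hh h = h := by
  have h1 := Nat.totient_eq_mul_prod_factors h
  have h2 : (h.totient : ℝ) = h * ∏ p ∈ h.primeFactors, (1 - (p : ℝ)⁻¹) := by
    have := congrArg (fun r : ℚ => (r : ℝ)) h1
    push_cast at this
    exact this
  rw [h2, hh, mul_assoc, ← prod_mul_distrib, prod_eq_one, mul_one]
  intro q hq
  have : (1 : ℝ) < q := by exact_mod_cast (Nat.prime_of_mem_primeFactors hq).one_lt
  have h3 : (q : ℝ) - 1 ≠ 0 := by linarith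
  field_simp
  ring

lemma card_classes {p h a : ℕ} (hh0 : 0 < h) (hp : p.Coprime h) (ha : a ≤ p) :
    #{s ∈ range h | (p * (s + 1) - a).Coprime h} ≤ h.totient := by
  rw [Nat.totient_eq_card_coprime]
  refine card_le_card_of_injOn (fun s => (p * (s + 1) - a) % h) (fun s hs => ?_) fun s hs t ht e => ?_
  · have := (mem_filter.mp (mem_coe.mp hs)).2
    refine mem_coe.mpr (mem_filter.mpr ⟨mem_range.mpr (Nat.mod_lt _ hh0), ?_⟩)
    rw [Nat.Coprime, Nat.gcd_comm, ← Nat.gcd_rec, Nat.gcd_comm]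
    exact this
  · have h1 : p * (s + 1) - a + a ≡ p * (t + 1) - a + a [MOD h] := Nat.ModEq.add_right a e
    rw [Nat.sub_add_cancel (ha.trans (Nat.le_mul_of_pos_right _ s.succ_pos)),
      Nat.sub_add_cancel (ha.trans (Nat.le_mul_of_pos_right _ t.succ_pos))] at h1
    exact Nat.ModEq.eq_of_lt_of_lt
      (Nat.ModEq.add_right_cancel' 1 (Nat.ModEq.cancel_left_of_coprime hp.symm h1))
      (mem_range.mp (mem_filter.mp (mem_coe.mp hs)).1) (mem_range.mp (mem_filter.mp (mem_coe.mp ht)).1)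

theorem pair {a p p' x w : ℕ} (ha : a = 1 ∨ a = 2) (hp : p.Prime) (hp' : p'.Prime) (h2 : 2 < p)
    (hlt : p < p') (hw : p' ≤ w) (hx : p' ≤ x) :
    (#{n ∈ Ioc 0 x | ((p * n - a).Prime ∧ w < p * n - a) ∧ (p' * n - a).Prime ∧ w < p' * n - a} : ℝ)
      ≤ 11 * x * hh (p' - p) / Real.log w ^ 2 + 2 * p' * (w : ℝ) ^ 8 := by
  obtain ⟨h, rfl⟩ : ∃ h, p' = p + h := ⟨p' - p, by omega⟩
  rw [Nat.add_sub_cancel_left]
  have h0 : 0 < h := by omega
  have hpe : 2 ∣ h := by
    have a1 := hp.eq_two_or_odd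
    have a2 := hp'.eq_two_or_odd
    omega
  have hc : p.Coprime h := by
    rw [← Nat.coprime_self_add_right]
    exact (Nat.coprime_primes hp hp').mpr hlt.ne
  set S := {s ∈ range h | (p * (s + 1) - a).Coprime h} with hS
  set M := x / h + 1 with hM
  set T : ℕ → Finset ℕ := fun s => {t ∈ range M |
    ((p * (s + 1) - a + p * h * t).Prime ∧ w < p * (s + 1) - a + p * h * t) ∧
      ((p + h) * (s + 1) - a + (p + h) * h * t).Prime ∧
        w < (p + h) * (s + 1) - a + (p + h) * h * t} with hT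
  have e : ∀ q s t : ℕ, 2 < q → q * (s + 1) - a + q * h * t = q * (s + h * t + 1) - a := by
    intro q s t hq
    have : a ≤ q * (s + 1) := le_trans (by omega) (Nat.le_mul_of_pos_right q s.succ_pos)
    rw [show q * (s + h * t + 1) = q * (s + 1) + q * h * t by ring]
    omega
  have h1 : #{n ∈ Ioc 0 x | ((p * n - a).Prime ∧ w < p * n - a) ∧
      ((p + h) * n - a).Prime ∧ w < (p + h) * n - a} ≤ #(S.sigma T) := by
    refine card_le_card_of_surjOn (fun i => i.1 + h * i.2 + 1) fun n hn => ?_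
    obtain ⟨h3, h4⟩ := mem_filter.mp (mem_coe.mp hn)
    obtain ⟨h5, h6⟩ := mem_Ioc.mp h3
    obtain ⟨m, rfl⟩ : ∃ m, n = m + 1 := ⟨n - 1, by omega⟩
    have h7 := Nat.mod_add_div m h
    refine ⟨⟨m % h, m / h⟩, mem_coe.mpr (mem_sigma.mpr ⟨mem_filter.mpr
      ⟨mem_range.mpr (Nat.mod_lt _ h0), ?_⟩, mem_filter.mpr ⟨mem_range.mpr ?_, ?_⟩⟩), by simp [h7]⟩
    · have h8 : (p * (m + 1) - a).Coprime h :=
        (Nat.Prime.coprime_iff_not_dvd h4.1.1).mpr (Nat.not_dvd_of_pos_of_lt h0 (by omega))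
      have h9 := e p (m % h) (m / h) h2
      rw [h7] at h9
      rw [← h9, mul_assoc, mul_comm h, ← mul_assoc, Nat.coprime_add_mul_right_left] at h8
      exact h8
    · exact Nat.lt_succ_of_le (Nat.div_le_div_right (by omega))
    · simp only
      rw [e _ _ _ h2, e _ _ _ (show 2 < p + h by omega), h7]
      exact h4
  have hD : hh (p * (p + h) * h) ≤ 3 / 2 * (3 / 2) * hh h :=
    (hh_mul_le _ _ (Nat.mul_ne_zero hp.ne_zero hp'.ne_zero) h0.ne').trans
      (mul_le_mul_of_nonneg_right ((hh_mul_le _ _ hp.ne_zero hp'.ne_zero).trans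
        (mul_le_mul (hh_prime hp h2) (hh_prime hp' (by omega)) (hh_pos _).le (by norm_num)))
        (hh_pos h).le)
  have hr : (0 : ℝ) < h := by exact_mod_cast h0
  have hM' : (M : ℝ) ≤ 2 * x / h := by
    have a1 : (h : ℝ) ≤ x := by exact_mod_cast (by omega : h ≤ x)
    have a2 : ((x / h : ℕ) : ℝ) ≤ x / h := Nat.cast_div_le
    have a3 : 1 ≤ (x : ℝ) / h := (one_le_div hr).mpr a1
    rw [hM, mul_div_assoc]
    push_cast
    linarith
  have h3 : ∀ s ∈ S, (#(T s) : ℝ) ≤
      2 * x / h * (3 / 2 * (3 / 2) * hh h) ^ 2 / Real.log w ^ 2 + 2 * (w : ℝ) ^ 8 := by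
    intro s _
    refine (sieve_two (D := p * (p + h) * h) (by positivity) (by omega) (hpe.mul_left _)
      (by rw [mul_right_comm]; exact dvd_mul_right _ _) (by rw [mul_assoc]; exact dvd_mul_left _ _)
      (fun q hq h4 => ?_) M).trans ?_
    · have a1 : a ≤ p * (s + 1) := le_trans (by omega) (Nat.le_mul_of_pos_right _ s.succ_pos)
      have a2 : a ≤ (p + h) * (s + 1) := le_trans (by omega) (Nat.le_mul_of_pos_right _ s.succ_pos)
      push_cast [Nat.cast_sub a1, Nat.cast_sub a2] at h4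
      rw [show ((p : ℤ) + h) * h * (p * (s + 1) - a) - p * h * ((p + h) * (s + 1) - a) =
        -((h * h * a : ℕ) : ℤ) by push_cast; ring, dvd_neg, Int.natCast_dvd_natCast] at h4
      refine Dvd.dvd.mul_left ?_ _
      rcases (Nat.Prime.dvd_mul hq).mp h4 with h5 | h5
      · exact ((Nat.Prime.dvd_mul hq).mp h5).elim id id
      · rcases ha with rfl | rfl
        · exact absurd (Nat.dvd_one.mp h5) hq.ne_one
        · exact h5.trans hpe
    · have := hh_pos (p * (p + h) * h)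
      gcongr
  have h4 : (#S : ℝ) ≤ h.totient := by exact_mod_cast card_classes h0 hc (by omega)
  have h5 : (h.totient : ℝ) ≤ (p + h : ℕ) := by
    exact_mod_cast (Nat.totient_le h).trans (Nat.le_add_left _ _)
  have h6 := totient_mul_hh h
  have h7 := hh_pos h
  refine (Nat.cast_le.mpr h1).trans ?_
  rw [card_sigma, Nat.cast_sum]
  refine (sum_le_card_nsmul _ _ _ h3).trans ?_
  rw [nsmul_eq_mul]
  refine (mul_le_mul_of_nonneg_right h4 (by positivity)).trans ?_
  rw [mul_add]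
  refine add_le_add ?_ ?_
  · rw [← mul_div_assoc]
    refine div_le_div_of_nonneg_right ?_ (by positivity)
    calc _ = h.totient * hh h / h * (81 / 8 * x * hh h) := by ring
      _ ≤ _ := by rw [h6, div_self hr.ne', one_mul]; gcongr; norm_num
  · rw [mul_left_comm, ← mul_assoc]
    gcongr

end Pool.Agent.MP_18a942_nt
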