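import Pool.Agent.MP_48b1c3_nt.H54.Sifted

/-!
Lower bounds: many `n` with `p n - a` prime, uniformly for `p ≤ (log x) ^ 2`, and many primes `p`
with `2 π(p) ± 1` prime.
-/

set_option autoImplicit false

namespace Pool.Agent.MP_18a942_nt

open Finset Filter Pool.Agent.MP_48b1c3_nt.H54

lemma exp_four_le : Real.exp 4 ≤ 64 := by
  calc Real.exp 4 = Real.exp 1 ^ 4 := by rw [← Real.exp_nat_mul]; norm_num
    _ ≤ 2.75 ^ 4 := by
        gcongr
        linarith [Real.exp_one_lt_d9]
    _ ≤ _ := by norm_num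

lemma ev_log (j : ℕ) {r c : ℝ} (hr : 0 < r) (hc : 0 < c) :
    ∀ᶠ x : ℝ in atTop, Real.log x ^ j ≤ c * x ^ r := by
  filter_upwards [(isLittleO_log_rpow_rpow_atTop (j : ℝ) hr).bound hc, eventually_ge_atTop 1]
    with x hx h1
  rwa [Real.rpow_natCast, Real.norm_of_nonneg (pow_nonneg (Real.log_nonneg h1) _),
    Real.norm_of_nonneg (by positivity)] at hx

theorem first : ∀ᶠ x : ℕ in atTop, ∀ a p : ℕ, a = 1 ∨ a = 2 → p.Prime → 2 < p →
    (p : ℝ) ≤ Real.log x ^ 2 →
      x / (40 * Real.log x) ≤ #{n ∈ Ioc 0 x | x < 64 * n ∧ (p * n - a).Prime} := by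
  obtain ⟨C, hC⟩ := bombieri_vinogradov 1 3
  obtain ⟨X₀, hX₀⟩ := eventually_atTop.1 ((hC.and wt_sum_lower).and
    (Real.tendsto_log_atTop.eventually_ge_atTop (20 * C)))
  filter_upwards [tendsto_natCast_atTop_atTop.eventually
    ((ev_log 2 (r := 1 / 20) (c := 1) (by norm_num) one_pos).and
      ((eventually_ge_atTop X₀).and (eventually_ge_atTop 3)))] with x ⟨h1, h2, h3⟩ a p ha hp hp2 hpx
  have L1 : 1 ≤ Real.log x := sw_one_le h3
  have p1 : (1 : ℝ) ≤ p := by exact_mod_cast hp.one_le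
  have x0 : (0 : ℝ) < x := by linarith
  have hxX : (x : ℝ) ≤ p * x := le_mul_of_one_le_left x0.le p1
  have X0 : (0 : ℝ) < p * x := by positivity
  obtain ⟨⟨h4, h5⟩, h6⟩ := hX₀ (p * x) (h2.trans hxX)
  have hLL : Real.log x ≤ Real.log (p * x) := Real.log_le_log x0 hxX
  have L2 : 0 < Real.log (p * x) := by linarith
  have hpx' : (p : ℝ) ≤ x := by
    refine (hpx.trans h1).trans ?_
    rw [one_mul]
    exact Real.rpow_le_self_of_one_le (by linarith) (by norm_num)
  have hL2 : Real.log (p * x) ≤ 2 * Real.log x := by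
    rw [Real.log_mul (by positivity) x0.ne']
    linarith [Real.log_le_log (by positivity) hpx']
  have h7 := h4 {p} (fun _ => p - a) fun N hN => by
    rw [mem_singleton.mp hN]
    refine ⟨hp.pos, (hpx.trans h1).trans ?_, ?_⟩
    · rw [one_mul]; gcongr
    · exact ((Nat.coprime_of_lt_prime (by omega) (by omega) hp)).symm
  simp only [sum_singleton, Nat.cast_one, one_pow, one_mul, Err] at h7
  have h8 : C * (p * x) / Real.log (p * x) ^ 3 ≤ x / 20 := by
    rw [div_le_div_iff₀ (by positivity) (by norm_num)]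
    calc C * (p * x) * 20 = 20 * C * p * x := by ring
      _ ≤ Real.log (p * x) * Real.log (p * x) ^ 2 * x := by
          gcongr
          exact hpx.trans (by gcongr)
      _ = _ := by ring
  have h9 : (x : ℝ) / 10 ≤ (∑ n ∈ Icc 1 ⌊(p : ℝ) * x⌋₊, wt (p * x) n) / p.totient := by
    have a1 : (0 : ℝ) < p.totient := by exact_mod_cast Nat.totient_pos.mpr hp.pos
    have a2 : (p.totient : ℝ) ≤ p := by exact_mod_cast Nat.totient_le p
    rw [le_div_iff₀ a1]
    nlinarith
  set F := (Icc 1 ⌊(p : ℝ) * x⌋₊).filter fun n => n ≡ p - a [MOD p] with hF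
  have h10 : (x : ℝ) / 20 ≤ ∑ n ∈ F with wt (p * x) n ≠ 0, wt (p * x) n := by
    rw [sum_filter_ne_zero]
    linarith [(abs_le.mp (h7.trans h8)).1]
  have h11 : ∑ n ∈ F with wt (p * x) n ≠ 0, wt (p * x) n ≤
      #{n ∈ F | wt (p * x) n ≠ 0} * (2 * Real.log x) := by
    refine (sum_le_card_nsmul _ _ _ fun m hm => (wt_le _ m).trans ?_).trans_eq (nsmul_eq_mul _ _)
    obtain ⟨-, k2, k3⟩ := mem_PI.1 (mem_PI_of_wt X0 (mem_filter.mp hm).2)
    exact (Real.log_le_log (by exact_mod_cast k3.pos) k2).trans hL2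
  have key : ∀ m ∈ F, p * ((m + a) / p) = m + a := fun m hm => by
    refine Nat.mul_div_cancel' ((Nat.modEq_zero_iff_dvd).mp ?_)
    have := ((mem_filter.mp hm).2.add_right a)
    rw [Nat.sub_add_cancel (by omega)] at this
    exact this.trans (Nat.modEq_zero_iff_dvd.mpr dvd_rfl)
  have h12 : #{n ∈ F | wt (p * x) n ≠ 0} ≤ #{n ∈ Ioc 0 x | x < 64 * n ∧ (p * n - a).Prime} := by
    refine card_le_card_of_injOn (fun m => (m + a) / p) (fun m hm => ?_) fun m hm m' hm' e => ?_
    · obtain ⟨k0, k⟩ := mem_filter.mp (mem_coe.mp hm)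
      obtain ⟨k1, k2, k3⟩ := mem_PI.1 (mem_PI_of_wt X0 k)
      have k4 := key m k0
      rw [div_lt_iff₀ (Real.exp_pos _)] at k1
      have k5 : p * x < 64 * m := by
        have : (p : ℝ) * x < 64 * m := by nlinarith [m.cast_nonneg (α := ℝ), exp_four_le]
        exact_mod_cast this
      have k6 : m ≤ p * x := by exact_mod_cast k2
      refine mem_coe.mpr (mem_filter.mpr ?_)
      simp only
      generalize (m + a) / p = n at k4
      have k7 : x < 64 * n := by
        refine Nat.lt_of_mul_lt_mul_left (a := p) ?_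
        rw [mul_left_comm, k4]
        omega
      refine ⟨mem_Ioc.mpr ⟨by omega, Nat.le_of_lt_succ (Nat.lt_of_mul_lt_mul_left (a := p) ?_)⟩,
        k7, by rwa [k4, Nat.add_sub_cancel]⟩
      rw [k4, Nat.mul_succ]
      omega
    · have k1 := key m (mem_filter.mp (mem_coe.mp hm)).1
      have k2 := key m' (mem_filter.mp (mem_coe.mp hm')).1
      simp only at e
      rw [e] at k1
      omega
  have h13 : (#{n ∈ F | wt (p * x) n ≠ 0} : ℝ) ≤ _ := Nat.cast_le.mpr h12
  rw [div_le_iff₀ (by positivity)]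
  nlinarith

lemma pi_lower : ∀ᶠ n : ℕ in atTop, n / (2 * Real.log n) ≤ n.primeCounting := by
  filter_upwards [tendsto_natCast_atTop_atTop.eventually
    ((ev_log 1 (r := 1) (c := 1 / 20) one_pos (by norm_num)).and (eventually_ge_atTop 3))]
    with n ⟨h1, h2⟩
  have L1 : 1 ≤ Real.log n := sw_one_le h2
  rw [pow_one, Real.rpow_one] at h1
  refine le_trans ?_ (Chebyshev.pi_ge n)
  have h3 : Real.log (n + 1) ≤ 2 * Real.log n := by
    rw [show 2 * Real.log n = Real.log ((n : ℝ) ^ 2) by rw [Real.log_pow]; norm_num]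
    exact Real.log_le_log (by positivity) (by nlinarith)
  rw [← div_div]
  gcongr
  nlinarith [Real.log_two_gt_d9]

theorem count : ∀ᶠ Y : ℕ in atTop, ∀ a : ℕ, a = 1 ∨ a = 2 → Y / Real.log Y ^ 3 ≤
    #{p ∈ Ioc 2 Y | p.Prime ∧ (2 * p.primeCounting + 2 * a - 3).Prime} := by
  filter_upwards [pi_lower, Nat.tendsto_primeCounting.eventually pi_lower,
    Nat.tendsto_primeCounting.eventually (eventually_ge_atTop 3),
    tendsto_natCast_atTop_atTop.eventually
    ((ev_log 3 (r := 1) (c := 1 / 4) one_pos (by norm_num)).and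
      ((Real.tendsto_log_atTop.eventually_ge_atTop 20).and (eventually_ge_atTop 3)))]
    with Y h1 h2 h3 ⟨h4, h5, h6⟩ a ha
  set K := Y.primeCounting with hK
  have hKY : K ≤ Y := by
    rw [hK, ← Nat.primesLE_card_eq_primeCounting, Nat.primesLE_eq_filter_Icc_one]
    exact (card_filter_le _ _).trans (by simp)
  have h7 : K.primeCounting ≤
      #{p ∈ Ioc 2 Y | p.Prime ∧ (2 * p.primeCounting + 2 * a - 3).Prime} + 4 := by
    rw [← Nat.primesLE_card_eq_primeCounting,
      ← card_filter_add_card_filter_not (s := Nat.primesLE K) (fun q => 4 ≤ q)]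
    refine add_le_add (card_le_card_of_injOn (fun q => Nat.nth Nat.Prime ((q + 1 - 2 * a) / 2))
      (fun q hq => ?_) fun q hq q' hq' e => ?_) ?_
    · obtain ⟨k1, k2⟩ := mem_filter.mp (mem_coe.mp hq)
      obtain ⟨k3, k4⟩ := Nat.mem_primesLE.mp k1
      have k5 := k4.eq_two_or_odd
      have k6 := Nat.add_two_le_nth_prime ((q + 1 - 2 * a) / 2)
      have k7 := Nat.prime_nth_prime ((q + 1 - 2 * a) / 2)
      refine mem_coe.mpr (mem_filter.mpr ⟨mem_Ioc.mpr ⟨by simp only; omega, ?_⟩, k7, ?_⟩)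
      · exact Nat.le_of_lt_succ (Nat.nth_lt_of_lt_count (show _ < K by omega))
      · simp only
        rw [Nat.primeCounting, Nat.primeCounting', Nat.count_succ, if_pos k7,
          Nat.count_nth_of_infinite Nat.infinite_setOfPred_prime]
        rwa [show 2 * ((q + 1 - 2 * a) / 2 + 1) + 2 * a - 3 = q by omega]
    · have k1 := (Nat.mem_primesLE.mp (mem_filter.mp (mem_coe.mp hq)).1).2.eq_two_or_odd
      have k2 := (Nat.mem_primesLE.mp (mem_filter.mp (mem_coe.mp hq')).1).2.eq_two_or_odd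
      have k3 := (mem_filter.mp (mem_coe.mp hq)).2
      have k4 := (mem_filter.mp (mem_coe.mp hq')).2
      have k5 := Nat.nth_injective Nat.infinite_setOfPred_prime e
      omega
    · exact (card_le_card (t := range 4) fun q hq => mem_range.mpr (not_le.mp (mem_filter.mp hq).2)).trans
        (by simp)
  have h8 : (K.primeCounting : ℝ) ≤ _ := Nat.cast_le.mpr h7
  push_cast at h8
  have K3 : (3 : ℝ) ≤ K := by exact_mod_cast h3
  have L1 : 1 ≤ Real.log K := sw_one_le K3
  have L2 : Real.log K ≤ Real.log Y := Real.log_le_log (by linarith) (by exact_mod_cast hKY)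
  rw [Real.rpow_one] at h4
  have h9 : 5 * (Y / Real.log Y ^ 3) ≤ K / (2 * Real.log K) := by
    calc 5 * (Y / Real.log Y ^ 3) = Y / (2 * Real.log Y) / (2 * Real.log Y) * (20 / Real.log Y) := by
          field_simp; ring
      _ ≤ K / (2 * Real.log K) * 1 := by
          gcongr
          exact (div_le_one (by linarith)).mpr h5
      _ = _ := mul_one _
  have h10 : 4 ≤ Y / Real.log Y ^ 3 := by
    rw [le_div_iff₀ (by positivity)]; linarith
  linarith

end Pool.Agent.MP_18a942_nt
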