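import Pool.Agent.MP_18a942_nt.First

/-!
The second moment inequality and the choice of the parameters.
-/

set_option autoImplicit false

namespace Pool.Agent.MP_18a942_nt

open Finset Filter

lemma second_moment (P : Finset ℕ) (A : ℕ → Finset ℕ) :
    (∑ p ∈ P, (#(A p) : ℝ)) ^ 2 ≤ #(P.biUnion A) * ∑ p ∈ P, ∑ p' ∈ P, (#(A p ∩ A p') : ℝ) := by
  have h := sq_sum_le_card_mul_sum_sq (s := P.biUnion A)
    (f := fun n => ∑ p ∈ P, if n ∈ A p then (1 : ℝ) else 0)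
  have e : ∀ S ⊆ P.biUnion A, ∑ n ∈ P.biUnion A, (if n ∈ S then (1 : ℝ) else 0) = #S := by
    intro S hS
    rw [sum_boole, filter_mem_eq_inter, inter_eq_right.mpr hS]
  rw [sum_comm, sum_congr rfl fun p hp => e _ (subset_biUnion_of_mem A hp)] at h
  refine h.trans (le_of_eq ?_)
  congr 1
  simp only [sq, sum_mul_sum]
  rw [sum_comm]
  refine sum_congr rfl fun p hp => ?_
  rw [sum_comm]
  refine sum_congr rfl fun p' _ => ?_
  rw [← e _ (inter_subset_left.trans (subset_biUnion_of_mem A hp))]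
  refine sum_congr rfl fun n _ => ?_
  by_cases h1 : n ∈ A p <;> by_cases h2 : n ∈ A p' <;> simp [h1, h2]

lemma finish {t t₀ g B x v c : ℝ} (hc : 0 < c) (hx : 0 < x) (hv : 1 ≤ v) (hg : 0 ≤ g) (h1 : t₀ ≤ t)
    (h2 : x / 40 ≤ t₀) (h3 : t ^ 2 ≤ g * (t + B)) (h4 : B * x ≤ c * v * t₀ ^ 2) :
    1 / (80 + 2 * c) * x / v ≤ g := by
  have t0 : 0 < t₀ := by linarith
  rw [div_le_iff₀ (by linarith), one_div, inv_mul_le_iff₀ (by positivity)]
  have a1 : 0 ≤ g * v := by positivity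
  rcases le_total B t with h | h
  · have a2 : t * t ≤ 2 * g * t := by nlinarith
    have a3 : t ≤ 2 * g := le_of_mul_le_mul_right a2 (by linarith)
    nlinarith [mul_nonneg hc.le a1]
  · have a2 : t₀ ^ 2 ≤ 2 * g * B := by nlinarith
    have a3 : x * t₀ ^ 2 ≤ 2 * c * (g * v) * t₀ ^ 2 := by nlinarith
    have a4 : x ≤ 2 * c * (g * v) := le_of_mul_le_mul_right a3 (by positivity)
    nlinarith

lemma params : ∀ᶠ L : ℝ in atTop, L ≤ ⌊L ^ 2⌋₊ / Real.log ⌊L ^ 2⌋₊ ^ 3 ∧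
    1 ≤ Real.log (Real.log (Real.log L)) ∧ ∃ k : ℕ, 2 ≤ k ∧ Real.log ⌊L ^ 2⌋₊ ^ 3 ≤ 2 ^ k ∧
      Real.log k ≤ 2 * Real.log (Real.log (Real.log L)) ∧ 0 < Real.log ⌊L ^ 2⌋₊ := by
  have T := Real.tendsto_log_atTop
  filter_upwards [ev_log 3 (r := 1) (c := 1 / 16) one_pos (by norm_num), eventually_ge_atTop 2,
    T.eventually_ge_atTop 2, (T.comp T).eventually_ge_atTop 11,
    (T.comp (T.comp T)).eventually_ge_atTop 1] with L h1 h2 h3 h4 h5
  simp only [Function.comp] at h4 h5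
  rw [Real.rpow_one] at h1
  have a1 : (⌊L ^ 2⌋₊ : ℝ) ≤ L ^ 2 := Nat.floor_le (by positivity)
  have a2 : L ^ 2 / 2 ≤ ⌊L ^ 2⌋₊ := by nlinarith [Nat.lt_floor_add_one (L ^ 2)]
  have a3 : 0 < Real.log ⌊L ^ 2⌋₊ := Real.log_pos (by nlinarith)
  have a4 : Real.log ⌊L ^ 2⌋₊ ≤ 2 * Real.log L := by
    rw [show 2 * Real.log L = Real.log (L ^ 2) by rw [Real.log_pow]; norm_num]
    exact Real.log_le_log (by nlinarith) a1
  have a5 : Real.log ⌊L ^ 2⌋₊ ^ 3 ≤ (2 * Real.log L) ^ 3 := by gcongr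
  set u := Real.log (Real.log L) with hu
  have b1 : 10 * u ≤ ⌈10 * u⌉₊ := Nat.le_ceil _
  have b2 : (⌈10 * u⌉₊ : ℝ) ≤ u ^ 2 := by
    nlinarith [Nat.ceil_lt_add_one (show 0 ≤ 10 * u by linarith)]
  refine ⟨?_, h5, ⌈10 * u⌉₊, by exact_mod_cast (by linarith : (2 : ℝ) ≤ ⌈10 * u⌉₊), a5.trans ?_, ?_, a3⟩
  · rw [le_div_iff₀ (by positivity)]
    nlinarith
  · calc (2 * Real.log L) ^ 3 ≤ (Real.log L * Real.log L) ^ 3 := by gcongr
      _ = Real.exp (6 * u) := by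
          rw [show (6 : ℝ) = (6 : ℕ) by norm_num, Real.exp_nat_mul, hu, Real.exp_log (by linarith)]
          ring
      _ ≤ Real.exp (⌈10 * u⌉₊ * Real.log 2) :=
          Real.exp_le_exp.mpr (by nlinarith [Real.log_two_gt_d9])
      _ = _ := by rw [Real.exp_nat_mul, Real.exp_log two_pos]
  · rw [show 2 * Real.log u = Real.log (u ^ 2) by rw [Real.log_pow]; norm_num]
    exact Real.log_le_log (by linarith) b2

lemma params' : ∀ᶠ x : ℝ in atTop, ∃ w : ℕ, ⌊Real.log x ^ 2⌋₊ ≤ w ∧ 64 * (w : ℝ) ≤ x ∧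
    Real.log x / 20 ≤ Real.log w ∧ 2 * Real.log x ^ 2 * (w : ℝ) ^ 8 ≤ x / Real.log x ^ 2 := by
  filter_upwards [ev_log 2 (r := 1 / 10) (c := 1) (by norm_num) one_pos,
    ev_log 4 (r := 1 / 10) (c := 1 / 128) (by norm_num) (by norm_num),
    Real.tendsto_log_atTop.eventually_ge_atTop 20, eventually_ge_atTop 1] with x h1 h2 h3 h4
  set y := x ^ (1 / 10 : ℝ) with hy
  have e : y ^ 10 = x := by
    rw [hy, ← Real.rpow_natCast, ← Real.rpow_mul (by linarith)]; norm_num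
  have a0 : (1 : ℝ) ≤ Real.log x ^ 4 := one_le_pow₀ (by linarith)
  have y1 : 128 ≤ y := by linarith
  have a1 : (⌊y⌋₊ : ℝ) ≤ y := Nat.floor_le (by linarith)
  have a2 : y / 2 ≤ ⌊y⌋₊ := by linarith [Nat.lt_floor_add_one y]
  have a3 : y ^ 2 ≤ y ^ 10 := pow_le_pow_right₀ (by linarith) (by norm_num)
  refine ⟨⌊y⌋₊, Nat.floor_le_floor (by linarith), by nlinarith, ?_, ?_⟩
  · have := Real.log_le_log (by linarith) a2
    rw [Real.log_div (by linarith) two_ne_zero, hy, Real.log_rpow (by linarith)] at this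
    linarith [Real.log_two_lt_d9]
  · rw [le_div_iff₀ (by positivity)]
    calc _ = 2 * Real.log x ^ 4 * (⌊y⌋₊ : ℝ) ^ 8 := by ring
      _ ≤ y ^ 2 * y ^ 8 := by gcongr; nlinarith
      _ = x := by rw [← e]; ring

end Pool.Agent.MP_18a942_nt
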