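import Pool.Agent.MP_18a942_nt.Avg
import Pool.Agent.MP_18a942_nt.Pair
import Pool.Agent.MP_18a942_nt.Params

/-!
The second moment argument.
-/

set_option autoImplicit false

namespace Pool.Agent.MP_18a942_nt

open Finset Filter Pool.Agent.MP_a96b63_al

theorem density : ∃ c : ℝ, 0 < c ∧ ∀ᶠ x : ℕ in atTop, ∀ a : ℕ, a = 1 ∨ a = 2 → ∃ G : Finset ℕ,
    c * x / Real.log (Real.log (Real.log (Real.log x))) ≤ #G ∧ ∀ n ∈ G, n ≤ x ∧ ∃ p : ℕ,
      p.Prime ∧ 2 < p ∧ p ≤ n ∧ (2 * p.primeCounting + 2 * a - 3).Prime ∧ (p * n - a).Prime ∧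
        2 < p * n - a := by
  obtain ⟨C, C0, hC⟩ := hh_avg
  refine ⟨1 / (80 + 2 * (1600 * (4401 * (8 * C)))), by positivity, ?_⟩
  have T : Tendsto (fun x : ℕ => Real.log x) atTop atTop :=
    Real.tendsto_log_atTop.comp tendsto_natCast_atTop_atTop
  filter_upwards [first, T.eventually params, tendsto_natCast_atTop_atTop.eventually params',
    (tendsto_nat_floor_atTop.comp ((tendsto_pow_atTop two_ne_zero).comp T)).eventually count,
    T.eventually_gt_atTop 0, eventually_gt_atTop 0]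
    with x h1 ⟨h2, h3, k, k1, k2, k3, k4⟩ ⟨w, w1, w2, w3, w4⟩ h4 L0 x0 a ha
  have h5 := h4 a ha
  simp only [Function.comp] at h5
  set L := Real.log x with hL
  set v := Real.log (Real.log (Real.log L)) with hv
  set Y := ⌊L ^ 2⌋₊ with hY
  set P := {p ∈ Ioc 2 Y | p.Prime ∧ (2 * p.primeCounting + 2 * a - 3).Prime} with hP
  set A : ℕ → Finset ℕ := fun p => {n ∈ Ioc 0 x | x < 64 * n ∧ (p * n - a).Prime} with hA
  have xr : (0 : ℝ) < x := by exact_mod_cast x0
  have hYL : (Y : ℝ) ≤ L ^ 2 := Nat.floor_le (by positivity)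
  have w2' : 64 * w ≤ x := by exact_mod_cast w2
  have mP : ∀ p ∈ P, 2 < p ∧ p ≤ Y ∧ p.Prime := fun p hp =>
    ⟨(mem_Ioc.mp (mem_filter.mp hp).1).1, (mem_Ioc.mp (mem_filter.mp hp).1).2, (mem_filter.mp hp).2.1⟩
  have mA : ∀ p ∈ P, ∀ n ∈ A p, (p * n - a).Prime ∧ w < p * n - a := fun p hp n hn => by
    obtain ⟨-, b1, b2⟩ := mem_filter.mp hn
    have : 3 * n ≤ p * n := Nat.mul_le_mul_right n (mP p hp).1
    exact ⟨b2, by omega⟩
  have hpair : ∀ p ∈ P, ∀ p' ∈ P, p < p' → (#(A p ∩ A p') : ℝ) ≤ 4401 * x / L ^ 2 * hh (p' - p) := by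
    intro p hp p' hp' hlt
    obtain ⟨b1, b2, b3⟩ := mP p hp
    obtain ⟨-, b4, b5⟩ := mP p' hp'
    refine le_trans (Nat.cast_le.mpr (card_le_card fun n hn => ?_))
      ((pair (x := x) (w := w) ha b3 b5 b1 hlt (by omega) (by omega)).trans ?_)
    · obtain ⟨b6, b7⟩ := mem_inter.mp hn
      exact mem_filter.mpr ⟨(mem_filter.mp b6).1, mA p hp n b6, mA p' hp' n b7⟩
    · have b6 := one_le_hh (p' - p)
      have b7 : (p' : ℝ) ≤ L ^ 2 := le_trans (by exact_mod_cast b4) hYL
      have b8 : 2 * p' * (w : ℝ) ^ 8 ≤ x / L ^ 2 * hh (p' - p) :=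
        le_trans (by gcongr) (w4.trans (le_mul_of_one_le_right (by positivity) b6))
      have b9 : 11 * x * hh (p' - p) / Real.log w ^ 2 ≤ 11 * x * hh (p' - p) / (L / 20) ^ 2 := by
        gcongr
      calc _ ≤ _ := add_le_add b9 b8
        _ = _ := by field_simp; ring
  have havg : ∀ (S : Finset ℕ) (f : ℕ → ℕ), S ⊆ P → Set.InjOn f S → (∀ q ∈ S, f q ∈ Ioc 0 Y) →
      ∑ q ∈ S, hh (f q) ≤ 4 * C * v * #P := by
    intro S f hS hf hf'
    have b1 := hC k k1 Y (S.image f) (image_subset_iff.mpr hf')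
    rw [sum_image hf] at b1
    have b2 : (#(S.image f) : ℝ) ≤ #P := by exact_mod_cast card_image_le.trans (card_le_card hS)
    have b3 : (Y : ℝ) / 2 ^ k ≤ #P := le_trans (by gcongr) h5
    calc _ ≤ _ := b1
      _ ≤ C * (2 * v) * (#P + #P) := by gcongr
      _ = _ := by ring
  have hrow : ∀ p ∈ P, ∑ p' ∈ P, (#(A p ∩ A p') : ℝ) ≤
      #(A p) + 4401 * x / L ^ 2 * (8 * C * v * #P) := by
    intro p hp
    obtain ⟨-, b2, -⟩ := mP p hp
    rw [← add_sum_erase P _ hp, inter_self,
      ← sum_filter_add_sum_filter_not (P.erase p) (fun q => p < q)]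
    have c1 := havg ((P.erase p).filter fun q => p < q) (fun q => q - p)
      ((filter_subset _ _).trans (erase_subset _ _))
      (fun q hq q' hq' e => by
        have := (mem_filter.mp (mem_coe.mp hq)).2
        have := (mem_filter.mp (mem_coe.mp hq')).2
        simp only at e
        omega)
      fun q hq => by
        have := (mem_filter.mp hq).2
        have := mP q (mem_of_mem_erase (mem_filter.mp hq).1)
        exact mem_Ioc.mpr ⟨by omega, by omega⟩
    have hl : ∀ q ∈ (P.erase p).filter fun q => ¬ p < q, q < p := fun q hq => by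
      have := (mem_filter.mp hq).2
      have := ne_of_mem_erase (mem_filter.mp hq).1
      omega
    have c2 := havg ((P.erase p).filter fun q => ¬ p < q) (fun q => p - q)
      ((filter_subset _ _).trans (erase_subset _ _))
      (fun q hq q' hq' e => by
        have := hl q (mem_coe.mp hq)
        have := hl q' (mem_coe.mp hq')
        simp only at e
        omega)
      fun q hq => by
        have := hl q hq
        exact mem_Ioc.mpr ⟨by omega, by omega⟩
    have c3 := sum_le_sum fun q (hq : q ∈ (P.erase p).filter fun q => p < q) =>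
      hpair p hp q (mem_of_mem_erase (mem_filter.mp hq).1) (mem_filter.mp hq).2
    have c4 := sum_le_sum fun q (hq : q ∈ (P.erase p).filter fun q => ¬ p < q) =>
      (inter_comm (A q) (A p)) ▸ hpair q (mem_of_mem_erase (mem_filter.mp hq).1) p hp (hl q hq)
    rw [← mul_sum] at c3 c4
    have c5 : (0 : ℝ) ≤ 4401 * x / L ^ 2 := by positivity
    have c6 := mul_le_mul_of_nonneg_left c1 c5
    have c7 := mul_le_mul_of_nonneg_left c2 c5
    linarith
  have hs := (second_moment P A).trans (mul_le_mul_of_nonneg_left (sum_le_sum hrow) (by positivity))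
  rw [sum_add_distrib, sum_const, nsmul_eq_mul] at hs
  have ht := card_nsmul_le_sum P (fun p => (#(A p) : ℝ)) _ fun p hp =>
    h1 a p ha (mP p hp).2.2 (mP p hp).1 (le_trans (by exact_mod_cast (mP p hp).2.1) hYL)
  rw [nsmul_eq_mul] at ht
  refine ⟨P.biUnion A, finish (by positivity) xr h3 (by positivity) ht ?_ hs (le_of_eq ?_),
    fun n hn => ?_⟩
  · calc (x : ℝ) / 40 = L * (x / (40 * L)) := by field_simp
      _ ≤ _ := by gcongr; exact h2.trans h5
  · field_simp
    ring
  · obtain ⟨p, hp, hn⟩ := mem_biUnion.mp hn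
    obtain ⟨b1, b2, b3⟩ := mP p hp
    obtain ⟨b4, b5, b6⟩ := mem_filter.mp hn
    have b7 := (mA p hp n hn).2
    exact ⟨(mem_Ioc.mp b4).2, p, b3, b1, by omega, (mem_filter.mp hp).2.2, b6, by omega⟩

end Pool.Agent.MP_18a942_nt
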